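import Pool.Agent.Run7.h276.DX.Iface

/-! Piece FPC of project DX (helper276, MP_39f9da_an). Author: helper510. -/

set_option autoImplicit false

namespace Run7.h510.DX

open Run7.h276.DX

theorem t_FPC : S_FPC := by
  intro H _ n γ R hR hRk hγ hinj
  set φ : FreeGroup (Fin n) →* H := FreeGroup.lift γ with hφ
  have hφs : Function.Surjective φ := by
    rw [← MonoidHom.range_eq_top, ← top_le_iff, ← hγ, Subgroup.closure_le]
    rintro _ ⟨i, rfl⟩
    exact ⟨FreeGroup.of i, by simp [hφ]⟩
  have hN : Subgroup.normalClosure R ≤ φ.ker := Subgroup.normalClosure_le_normal hRk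
  set ρ : FreeGroup (Fin n) ⧸ Subgroup.normalClosure R →* H :=
    QuotientGroup.lift (Subgroup.normalClosure R) φ (fun x hx => hN hx) with hρ
  have hmk : ∀ x : FreeGroup (Fin n), ρ (QuotientGroup.mk' _ x) = φ x := fun x => rfl
  have hρi : Function.Injective ρ := by
    refine hinj (FreeGroup (Fin n) ⧸ Subgroup.normalClosure R)
      (fun i => QuotientGroup.mk' (Subgroup.normalClosure R) (FreeGroup.of i)) ρ ?_ ?_ ?_
    · rw [← top_le_iff]
      intro x _
      obtain ⟨y, rfl⟩ := QuotientGroup.mk'_surjective _ x
      induction y using FreeGroup.induction_on with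
      | C1 => rw [map_one]; exact Subgroup.one_mem _
      | of i => exact Subgroup.subset_closure ⟨i, rfl⟩
      | inv_of i h => rw [map_inv]; exact Subgroup.inv_mem _ (h trivial)
      | mul x y hx hy => rw [map_mul]; exact Subgroup.mul_mem _ (hx trivial) (hy trivial)
    · intro r hr
      have e : FreeGroup.lift (fun i => QuotientGroup.mk' (Subgroup.normalClosure R)
          (FreeGroup.of i)) = QuotientGroup.mk' (Subgroup.normalClosure R) := by
        ext i
        simp
      rw [e]
      exact (QuotientGroup.eq_one_iff r).2 (Subgroup.subset_normalClosure hr)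
    · intro i
      rw [hmk, hφ]
      simp
  refine ⟨n, φ, hφs, R, hR, le_antisymm hN ?_⟩
  intro x hx
  rw [← QuotientGroup.eq_one_iff (N := Subgroup.normalClosure R) x]
  apply hρi
  rw [map_one]
  exact hx

end Run7.h510.DX
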